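import Mathlib
import Pool.Agent.W2helper64.HE.Cuban

set_option autoImplicit false

/-!
# Hereditary sets of shifts for cuban numbers with at most three prime factors
-/

namespace Pool.Agent.Results.MP_22d6bb_nt.HereditaryCubanShifts

open Filter Polynomial

/-- `n` has at most `r` prime factors, counted with multiplicity, all of them at least `w`. -/
def AlmostPrime (r : ℕ) (w : ℝ) (n : ℤ) : Prop :=
  n.natAbs.primeFactorsList.length ≤ r ∧ ∀ p : ℕ, p.Prime → (p : ℤ) ∣ n → w ≤ p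

/-- The scale `N` is good for the polynomial `f` and the shifts `H`: there are `1 ≤ d ≤ (log N) ^ C` and a progression
`u, u + d, ..., u + (l - 1) d` in `(N, N + N ^ (3 / 4)]` such that for all its terms `x` and all `h ∈ H`, with
`k = x + h`, the cuban number `3 k ^ 2 + 3 k + 1` has at most three prime factors, all of them at least `N ^ (73 / 400)`,
and `f k` has at most `r` prime factors, all of them at least `N ^ δ`. -/
def GoodScale (f : ℤ[X]) (r : ℕ) (δ : ℝ) (l C : ℕ) (H : Finset ℕ) (N : ℕ) : Prop := ∃ u d : ℕ, 1 ≤ d ∧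
  (d : ℝ) ≤ Real.log N ^ C ∧ ∀ j < l, N < u + j * d ∧ ((u + j * d : ℕ) : ℝ) ≤ N + (N : ℝ) ^ (3 / 4 : ℝ) ∧
    ∀ h ∈ H, AlmostPrime 3 ((N : ℝ) ^ (73 / 400 : ℝ))
        (3 * ((u + j * d + h : ℕ) : ℤ) ^ 2 + 3 * ((u + j * d + h : ℕ) : ℤ) + 1) ∧
      AlmostPrime r ((N : ℝ) ^ δ) (f.eval ((u + j * d + h : ℕ) : ℤ))

/-- `f ≠ 0`, and the product of the cuban numbers and the values of `f` has no fixed prime divisor. -/
def Admissible (f : ℤ[X]) : Prop :=
  f ≠ 0 ∧ ∀ p : ℕ, p.Prime → ∃ n : ℤ, ¬ (p : ℤ) ∣ (3 * n ^ 2 + 3 * n + 1) * f.eval n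

/-- `A` has positive upper density. -/
def PositiveUpperDensity (A : Set ℕ) : Prop :=
  ∃ δ : ℝ, 0 < δ ∧ ∃ᶠ N : ℕ in atTop, δ * N ≤ ((A ∩ Set.Icc 1 N).ncard : ℝ)

/-- Let `S` be a set of positive upper density. Every infinite set `V` of nonnegative integers has an infinite subset
`B` with the following property, for suitable `K(f, m)`, `r(f, H)`, `δ(f, H) > 0` and `C(f, l, H)`. Let
`f_1, ..., f_n` be admissible polynomials with integer coefficients (for example `f_i = 1`), let `l_1, ..., l_n` be given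
and let `H_1, ..., H_n` be finite subsets of `B` whose elements are at least `K(f_i, #H_i)`. Then the set of the scales
`N` in `S` which are good for all the `f_i` and the shifts `H_i` simultaneously has positive upper density. -/
theorem result (S : Set ℕ) (hS : PositiveUpperDensity S) (V : Set ℕ) (hV : V.Infinite) :
    ∃ B ⊆ V, B.Infinite ∧
    ∃ (K : ℤ[X] → ℕ → ℕ) (r : ℤ[X] → Finset ℕ → ℕ) (δ : ℤ[X] → Finset ℕ → ℝ) (C : ℤ[X] → ℕ → Finset ℕ → ℕ),
      (∀ f H, 0 < δ f H) ∧ ∀ F : Finset (ℤ[X] × ℕ × Finset ℕ),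
      (∀ x ∈ F, Admissible x.1 ∧ (x.2.2 : Set ℕ) ⊆ B ∧ ∀ h ∈ x.2.2, K x.1 x.2.2.card ≤ h) →
      PositiveUpperDensity {N | N ∈ S ∧
        ∀ x ∈ F, GoodScale x.1 (r x.1 x.2.2) (δ x.1 x.2.2) x.2.1 (C x.1 x.2.1 x.2.2) x.2.2 N} :=
  Pool.Agent.W2helper64.HE.Cu.main_dens S hS V hV

end Pool.Agent.Results.MP_22d6bb_nt.HereditaryCubanShifts
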