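import Pool.Agent.W2helper62.CD7

/-!
# Prime differences of the numbers `⌊α k³⌋` for almost all real `α`

Q1: are infinitely many of the differences `(k+1)³ - k³` of consecutive cubes prime?  We replace the cubes `k³` by the
integers `⌊α k³⌋` and show: for almost every real `α > 0` the number of the `k ≤ N` for which the difference

  `⌊α (k+1)³⌋ - ⌊α k³⌋`

of consecutive terms is prime is asymptotic to `N / (2 log N)`; the question is the case `α = 1`. More generally, for
every exponent `d ≥ 2` and almost every `α > 0`: for ALL distances `h ≥ 1`, all real `β` and all integers `b` the number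
of the `k ≤ N` for which `⌊α (k+h)^d + β⌋ - ⌊α k^d + β⌋ + b` is prime is asymptotic to `N / ((d-1) log N)`, and the
number of the PRIMES `k ≤ N` with this property to `N / ((d-1) (log N)²)`.

The difference is `⌊α ((k+h)^d - k^d)⌋` or this number plus one, according to the fractional parts of `α k^d + β` and
`α (k+h)^d + β`, so that the metric theorem on the primes among the `⌊α f(k)⌋ + b`, `f` a fixed polynomial (starting
files, `Pool.Agent.N798.S`, `S2`; the engine) does not apply directly. New here:

* the numbers `α k^d` are uniformly distributed modulo 1 along the `k` for which `⌊α f(k)⌋ + b` is prime, for almost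
  all `α`, where `f(k) = (k+h)^d - k^d`: the exponential sum over these `k` has second moment `O(N log N)` over `α` in a
  bounded interval, since the frequencies `k^d - k'^d` exceed the numbers `f(k) + f(k')` of jumps of the weights by a
  factor `≍ |k - k'|` (`Pool.Agent.W2helper62.CD.osc`, `ms`, `ae_V`), and a weighted form of Weyl's criterion for
  the function `{x}` (`saw`);
* the sum of the main terms, in which the primes carry the weights `1 - {α f(k)}` and `{α f(k)}`, is an average of the
  counting functions of the primes `⌊α f(k) + c⌋ + b` over the shifts `0 ≤ c ≤ 1`, and these are good for almost all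
  `c` (`avg`: Fubini's theorem in the coordinates `(α, c/α)` and dominated convergence).
-/

set_option autoImplicit false

namespace Pool.Agent.Results.MP_22d6bb_nt.MetricDifferences

open Finset MeasureTheory Filter Topology

/-- the number of the `1 ≤ k ≤ N` (of the primes `k ≤ N` if `pr` is true) for which
`⌊α (k+h)^d + β⌋ - ⌊α k^d + β⌋ + b` is a prime -/
noncomputable def count (pr : Bool) (d h : ℕ) (α β : ℝ) (b : ℤ) (N : ℕ) : ℕ :=
  #((Icc 1 N).filter fun k : ℕ => (pr = true → k.Prime) ∧
    (⌊α * ((k : ℝ) + h) ^ d + β⌋ - ⌊α * (k : ℝ) ^ d + β⌋ + b).toNat.Prime)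

/-- **Primes among the differences of the `⌊α k^d + β⌋`.** For `d ≥ 2` and almost every `α > 0`, for all `h ≥ 1`, all
real `β` and all integers `b`, the number of the `k ≤ N` with `⌊α (k+h)^d + β⌋ - ⌊α k^d + β⌋ + b` prime is
`~ N / ((d-1) log N)`, and the number of the primes `k ≤ N` with this property is `~ N / ((d-1) (log N)²)`. -/
theorem result (d : ℕ) (hd : 2 ≤ d) : ∀ᵐ α : ℝ, 0 < α → ∀ h : ℕ, 1 ≤ h → ∀ (β : ℝ) (b : ℤ),
    Tendsto (fun N : ℕ => (count false d h α β b N : ℝ) * Real.log N / N) atTop (𝓝 (1 / ((d : ℝ) - 1))) ∧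
    Tendsto (fun N : ℕ => (count true d h α β b N : ℝ) * (Real.log N) ^ 2 / N) atTop (𝓝 (1 / ((d : ℝ) - 1))) := by
  obtain ⟨m, rfl⟩ : ∃ m, d = m + 1 := ⟨d - 1, by omega⟩
  have hm : 1 ≤ m := by omega
  have e0 : (((m + 1 : ℕ) : ℝ) - 1) = m := by push_cast; ring
  rw [e0]
  have key : ∀ (pr : Bool) (h : ℕ) (α β : ℝ) (b : ℤ) (N : ℕ), ∑ k ∈ Icc 1 N, Pool.Agent.W2helper62.CD.I pr k *
      Pool.Agent.W2helper62.CD.P (⌊α * ((k : ℝ) + h) ^ (m + 1) + β⌋ - ⌊α * (k : ℝ) ^ (m + 1) + β⌋ + b) =
      (count pr (m + 1) h α β b N : ℝ) := by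
    intro pr h α β b N
    unfold count Pool.Agent.W2helper62.CD.I Pool.Agent.W2helper62.CD.P
    rw [Finset.card_filter]
    push_cast
    refine sum_congr rfl fun k _ => ?_
    by_cases h1 : (pr = true → k.Prime)
    · by_cases h2 : (⌊α * ((k : ℝ) + h) ^ (m + 1) + β⌋ - ⌊α * (k : ℝ) ^ (m + 1) + β⌋ + b).toNat.Prime
      · rw [if_pos h1, if_pos h2, if_pos (show _ ∧ _ from ⟨h1, h2⟩)]; norm_num
      · rw [if_neg h2, if_neg (show ¬ (_ ∧ _) from fun h => h2 h.2)]; norm_num
    · rw [if_neg h1, if_neg (show ¬ (_ ∧ _) from fun h => h1 h.1)]; norm_num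
  filter_upwards [Pool.Agent.W2helper62.CD.main m hm] with α hα hpos h hh β b
  have g1 := hα hpos h hh β b false
  have g2 := hα hpos h hh β b true
  simp only [key] at g1 g2
  constructor
  · refine g1.congr fun N => ?_
    unfold Pool.Agent.W2helper62.CD.rho
    simp only [Bool.toNat_false, add_zero, pow_one]
    ring
  · refine g2.congr fun N => ?_
    unfold Pool.Agent.W2helper62.CD.rho
    simp only [Bool.toNat_true]
    ring

end Pool.Agent.Results.MP_22d6bb_nt.MetricDifferences
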