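import Pool.Agent.W2helper14.RB.Cub2

set_option autoImplicit false

/-!
# Differences of consecutive cubes in the random sieve model of Banks, Ford and Tao

For every prime `w` a residue class `a w` modulo `w` is chosen uniformly and independently. The random
set `R` consists of the natural numbers `n ≥ e ^ 2` which avoid the class `a w` for every prime `w` with
`∏_(v ≤ w) (1 - 1 / v) ≥ 1 / log n`; this is the random sieve model for the primes of Banks, Ford and
Tao, in which the classes `0 mod w` of the sieve of Eratosthenes are replaced by random ones.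

All differences `(k + 1) ^ 3 - k ^ 3 = 3 k ^ 2 + 3 k + 1` are `1` modulo `2` and modulo `3`. We prove that
almost surely infinitely many of them are in `R` if and only if `a 2 = 0` and `a 3 ≠ 1`, and that in this
case their number is given by the formula of Hardy and Littlewood with a square-root error, and the formula
holds in all short intervals.

The engine is the Bateman-Horn theorem for this model of helper64 (`W2helper64.BQ`).
-/

namespace Pool.Agent.Results.MP_22d6bb_nt.RandomSieveCubans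

open Filter MeasureTheory Topology

/-- the product `V y = ∏_(w ≤ y, w prime) (1 - 1 / w)` -/
noncomputable def V (y : ℕ) : ℝ := ∏ w ∈ (Finset.Icc 1 y).filter Nat.Prime, (1 - 1 / (w : ℝ))

/-- the random set: all `n ≥ e ^ 2` outside the chosen class `a w` for every prime `w` with
`V w ≥ 1 / log n` -/
def R (a : (w : Nat.Primes) → ZMod (w : ℕ)) : Set ℕ :=
  {n | Real.exp 2 ≤ n ∧ ∀ w : Nat.Primes, 1 ≤ V (w : ℕ) * Real.log n → ((n : ℕ) : ZMod (w : ℕ)) ≠ a w}

/-- the chosen classes `a w`, `w` prime, are independent and uniform modulo `w` -/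
noncomputable def law : Measure ((w : Nat.Primes) → ZMod (w : ℕ)) :=
  Measure.infinitePi fun w : Nat.Primes => ProbabilityTheory.uniformOn (Set.univ : Set (ZMod (w : ℕ)))

instance (w : Nat.Primes) : Fact (w : ℕ).Prime := ⟨w.2⟩

/-- the product of `1 - (12 a_w - 3 | w) / (w - 1)` over the primes `5 ≤ w ≤ z` -/
noncomputable def product (a : (w : Nat.Primes) → ZMod (w : ℕ)) (z : ℕ) : ℝ :=
  ∏ w ∈ (Finset.Icc 5 z).subtype Nat.Prime,
    (1 - ((quadraticChar (ZMod (w : ℕ)) (12 * a w - 3) : ℤ) : ℝ) / ((w : ℕ) - 1))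

/-- the `k ≥ 1` with `(k + 1) ^ 3 - k ^ 3 ∈ R` -/
def cubans (a : (w : Nat.Primes) → ZMod (w : ℕ)) : Set ℕ := {k | 1 ≤ k ∧ (k + 1) ^ 3 - k ^ 3 ∈ R a}

/-- the number of `1 ≤ k ≤ N` with `(k + 1) ^ 3 - k ^ 3 ∈ R` -/
noncomputable def count (a : (w : Nat.Primes) → ZMod (w : ℕ)) (N : ℕ) : ℕ :=
  {k : ℕ | 1 ≤ k ∧ k ≤ N ∧ (k + 1) ^ 3 - k ^ 3 ∈ R a}.ncard

/-- the sum of `1 / log ((k + 1) ^ 3 - k ^ 3)` over `2 ≤ k ≤ N` -/
noncomputable def mainTerm (N : ℕ) : ℝ := ∑ k ∈ Finset.Icc 2 N, 1 / Real.log ((k + 1) ^ 3 - k ^ 3 : ℝ)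

/-- Almost surely there are infinitely many `k` with `(k + 1) ^ 3 - k ^ 3 ∈ R` if and only if `a 2 = 0` and
`a 3 ≠ 1`; and if this is the case, the product of `1 - (12 a_w - 3 | w) / (w - 1)` over the primes `w ≥ 5`
(in increasing order) converges to some `h > 0`, and the number of the `k ≤ N` with
`(k + 1) ^ 3 - k ^ 3 ∈ R` is `3 h ∑_(2 ≤ k ≤ N) 1 / log ((k + 1) ^ 3 - k ^ 3) + O(N ^ (1 / 2 + ε))` for every
`ε > 0`; and for all `δ > 0` and `U`, all large `y` and all `H ≥ y ^ δ` the same formula holds for the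
`y < k ≤ y + H`, with an error of at most `H / (log (y + H)) ^ U`. -/
theorem result : ∀ᵐ a ∂law,
    ((cubans a).Infinite ↔ a ⟨2, Nat.prime_two⟩ = 0 ∧ a ⟨3, Nat.prime_three⟩ ≠ 1) ∧
    (a ⟨2, Nat.prime_two⟩ = 0 → a ⟨3, Nat.prime_three⟩ ≠ 1 →
      ∃ h : ℝ, 0 < h ∧ Tendsto (product a) atTop (𝓝 h) ∧
        (∀ ε : ℝ, 0 < ε →
          (fun N : ℕ => (count a N : ℝ) - 3 * h * mainTerm N) =O[atTop] fun N : ℕ => (N : ℝ) ^ (1 / 2 + ε)) ∧
        ∀ δ : ℝ, 0 < δ → ∀ U : ℕ, ∀ᶠ y : ℕ in atTop, ∀ H : ℕ, (y : ℝ) ^ δ ≤ H →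
          |((count a (y + H) : ℝ) - count a y) - 3 * h * (mainTerm (y + H) - mainTerm y)| ≤
            H / Real.log ((y : ℝ) + H) ^ U) :=
  Pool.Agent.W2helper14.RB.cub_ae2

end Pool.Agent.Results.MP_22d6bb_nt.RandomSieveCubans
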